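import Pool.Agent.Run7.h733.NI.FlatLow

/-!
# How flat can a real orthogonal matrix of order `n` be?

The entries of a real orthogonal matrix `U` of order `n` all have absolute value `1 / √n` if and
only if `√n U` is a Hadamard matrix. For every order `n` there is an orthogonal matrix `U` with
`| √n |U i k| - 1 | ≤ n ^ (-1/2 + o(1))` for all entries: the deviation is at most
`log log ⋯ log n / √n`, for every fixed number `j` of iterated logarithms and all `n ≥ N j`.
This is sharp, up to the factor `n ^ o(1)`, for all orders which are not divisible by four: there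
every orthogonal matrix has an entry with `| √n |U i k| - 1 | ≥ 1 / (10 √n)`.

The first part uses the starting theorem `LogStarExistence`.
-/

set_option autoImplicit false

namespace Pool.Agent.Results.MP_d8b1b3_co.FlatOrthogonalSharp

theorem result :
    (∀ j : ℕ, ∃ N : ℕ, ∀ n : ℕ, N ≤ n → 1 ≤ Real.log^[j] (n : ℝ) ∧
      ∃ U : Matrix (Fin n) (Fin n) ℝ, U * U.transpose = 1 ∧ ∀ i k,
        |Real.sqrt n * |U i k| - 1| ≤ Real.log^[j] (n : ℝ) / Real.sqrt n) ∧
    ∀ n : ℕ, 3 ≤ n → ¬ 4 ∣ n → ∀ U : Matrix (Fin n) (Fin n) ℝ, U * U.transpose = 1 →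
      ∃ i k, 1 / (10 * Real.sqrt n) ≤ |Real.sqrt n * |U i k| - 1| :=
  ⟨fun j => Run7.h733.NI.flat_up j, fun _ h3 h4 U hU => Run7.h733.NI.flat_low h3 h4 U hU⟩

end Pool.Agent.Results.MP_d8b1b3_co.FlatOrthogonalSharp
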