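import Pool.Agent.Run7.h900.GI.Groups

/-!
# Hadamard matrices of order `2 ^ t * |G|` invariant under a prescribed finite group `G`

Let `tow n` be the power tower `2 ^ 2 ^ ⋯ ^ 2` of `n` twos (`tow 0 = 1`). There is a constant `C`
with the following properties.

* Let `G` be a finite group with subgroups `1 = K 0 ≤ K 1 ≤ ⋯ ≤ K r = G` such that `K (i + 1)` is
  the disjoint union of `K i * a i ^ j`, `j < q i`, for an element `a i` (no normality is assumed).
  If `q i ≤ tow (n i)`, then for every `t ≥ ∑ i < r, C ^ (n i + 1)` there is a Hadamard matrix of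
  order `2 ^ t * |G|`, rows and columns indexed by `Fin (2 ^ t) × G`, invariant under the left
  multiplications of `G`: `G` acts on rows and on columns with `2 ^ t` regular orbits.
* For every finite solvable group it suffices that `t ≥ ∑ C ^ (n p + 1)`, the sum over the prime
  factors `p` of `|G|` with multiplicity, `p ≤ tow (n p)`.
* For the symmetric group on `n ≤ tow m` letters it suffices that `t ≥ n * C ^ (m + 1)`.
-/

set_option autoImplicit false

namespace Pool.Agent.Results.MP_d8b1b3_co.GroupInvariant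

/-- the power tower of `n` twos -/
def tow (n : ℕ) : ℕ := (fun x : ℕ => 2 ^ x)^[n] 1

/-- `K ≤ K'`, `a ∈ K'`, and each element of `K'` is `k * a ^ j` for exactly one `k ∈ K`, `j < q` -/
def CyclicStep {G : Type} [Group G] (K K' : Subgroup G) (a : G) (q : ℕ) : Prop :=
  K ≤ K' ∧ a ∈ K' ∧ ∀ g ∈ K', ∃! p : K × Fin q, (p.1 : G) * a ^ (p.2 : ℕ) = g

/-- there is a `G`-invariant Hadamard matrix of order `2 ^ t * |G|` -/
def InvHadamard (G : Type) [Group G] [Fintype G] [DecidableEq G] (t : ℕ) : Prop :=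
  ∃ H : Matrix (Fin (2 ^ t) × G) (Fin (2 ^ t) × G) ℤ,
    (∀ x y, H x y = 1 ∨ H x y = -1) ∧
    H * H.transpose = ((2 ^ t * Fintype.card G : ℕ) : ℤ) •
      (1 : Matrix (Fin (2 ^ t) × G) (Fin (2 ^ t) × G) ℤ) ∧
    ∀ (g x y : G) (i j : Fin (2 ^ t)), H (i, g * x) (j, g * y) = H (i, x) (j, y)

theorem result : ∃ C : ℕ,
    (∀ (G : Type) [Group G] [Fintype G] [DecidableEq G] (r : ℕ) (K : ℕ → Subgroup G) (a : ℕ → G)
      (q n : ℕ → ℕ), K 0 = ⊥ → K r = ⊤ →
      (∀ i < r, CyclicStep (K i) (K (i + 1)) (a i) (q i) ∧ q i ≤ tow (n i)) →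
      ∀ t : ℕ, ∑ i ∈ Finset.range r, C ^ (n i + 1) ≤ t → InvHadamard G t) ∧
    (∀ (G : Type) [Group G] [Fintype G] [DecidableEq G] [Group.IsSolvable G] (n : ℕ → ℕ),
      (∀ p ∈ (Fintype.card G).primeFactorsList, p ≤ tow (n p)) →
      ∀ t : ℕ, ((Fintype.card G).primeFactorsList.map (fun p => C ^ (n p + 1))).sum ≤ t →
        InvHadamard G t) ∧
    (∀ m n t : ℕ, n ≤ tow m → n * C ^ (m + 1) ≤ t → InvHadamard (Equiv.Perm (Fin n)) t) := by
  obtain ⟨C, -, hC⟩ := Pool.Agent.W851.Had.main_pu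
  refine ⟨C, ?_, ?_, ?_⟩
  · intro G _ _ _ r K a q n h0 hr h t ht
    have h1 := Run7.h900.GI.reach_chain hC K a q n h0 r h t ht
    rw [hr] at h1
    exact Run7.h900.GI.reach_had h1
  · intro G _ _ _ _ n hn t ht
    have h2 : Nat.card (⊤ : Subgroup G) = Fintype.card G := by
      rw [Subgroup.card_top, Nat.card_eq_fintype_card]
    exact Run7.h900.GI.reach_had (Run7.h900.GI.reach_solv hC n (Fintype.card G) ⊤ h2 hn t ht)
  · intro m n t hn ht
    exact Run7.h900.GI.reach_had (Run7.h900.GI.reach_sym hC n m t hn ht)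

end Pool.Agent.Results.MP_d8b1b3_co.GroupInvariant
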