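import Pool.Agent.Run7.h733.NI.Main

/-!
# Sign matrices of every order with almost equal singular values

A Hadamard matrix of order `n` is a sign matrix `A` with `|A x| = √n |x|` for all `x`, that is, all
singular values are equal to `√n`. For every order `n` (in all residue classes modulo 4) there is a
sign matrix whose singular values are all equal to `√n + O(n ^ (1/4) (log n) ^ (1/2 + o(1)))`: for
every `j` and all `n ≥ N j` there is a sign matrix `A` of order `n` with
`| |A x| - √n |x| | ≤ n ^ (1/4) √(log n · log log ⋯ log n) |x|` (`j` iterated logarithms) for all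
real vectors `x`.

The proof takes a Hadamard matrix of a slightly larger order `n + d` (from the starting theorem
`LogStarExistence`), passes to a flat orthogonal matrix of order `n`, and rounds it to a sign matrix
with an error which is small in the operator norm; the signs are chosen with the Golden-Thompson
inequality (of the library) along the diagonals.
-/

set_option autoImplicit false

namespace Pool.Agent.Results.MP_d8b1b3_co.NearIsometriesAllOrders

theorem result : ∀ j : ℕ, ∃ N : ℕ, ∀ n : ℕ, N ≤ n → 1 ≤ Real.log^[j] (n : ℝ) ∧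
    ∃ A : Matrix (Fin n) (Fin n) ℤ, (∀ i k, A i k = 1 ∨ A i k = -1) ∧
      ∀ x : Fin n → ℝ,
        |Real.sqrt (∑ i, (∑ k, (A i k : ℝ) * x k) ^ 2) - Real.sqrt n * Real.sqrt (∑ k, x k ^ 2)| ≤
          (n : ℝ) ^ (1 / 4 : ℝ) * Real.sqrt (Real.log n * Real.log^[j] (n : ℝ)) *
            Real.sqrt (∑ k, x k ^ 2) := by
  classical
  intro j
  obtain ⟨N, hN⟩ := Run7.h733.NI.near j
  refine ⟨N, fun n hn => ?_⟩
  obtain ⟨h1, S, hS, hb⟩ := hN n hn
  refine ⟨h1, Matrix.of fun i k => if S i k = 1 then 1 else -1, ?_, fun x => ?_⟩
  · intro i k
    rw [Matrix.of_apply]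
    split_ifs
    · exact Or.inl rfl
    · exact Or.inr rfl
  · have e : ∀ i k, (((Matrix.of fun i k => if S i k = 1 then (1 : ℤ) else -1) i k : ℤ) : ℝ) =
        S i k := by
      intro i k
      rw [Matrix.of_apply]
      rcases hS i k with h | h
      · rw [if_pos h, h]; norm_num
      · rw [if_neg (by rw [h]; norm_num), h]; norm_num
    simp only [e]
    exact hb x

end Pool.Agent.Results.MP_d8b1b3_co.NearIsometriesAllOrders
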