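import Pool.Agent.Run7.h900.OD.Main

/-!
# Skew-Hadamard matrices which are made of weighing matrices of prescribed weights

There is a constant `C` such that the following holds for all orders `N = 2 ^ t * q` with `q` odd,
`q ≤ 2 ↑↑ n` (the power tower of `n` twos, `1` for `n = 0`) and `t ≥ 2 ^ C ^ (n + 1) * (m + 1)`. For
all weights `w 0, w 1, …, w (m + 1)` with the sum `N - 1`, those of index at least two being multiples
of `2 ^ t`, there are skew weighing matrices `M i` of order `N` and weight `w i` which anticommute in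
pairs and whose supports partition the positions off the diagonal. So all the `2 ^ (m + 2)` matrices
`1 ± M 0 ± M 1 ± ⋯ ± M (m + 1)` are skew-Hadamard matrices; for `m = 0` the weights `w 0` and
`w 1 = N - 1 - w 0` are arbitrary.

From the starting files: the para-unitary matrices of all lengths (`Pool.Agent.W851.Had.main_pu`) and
the gadgets with two complementary skew parts (`Pool.Agent.N328.PH.exists_arms`).
-/

set_option autoImplicit false

namespace Pool.Agent.Results.MP_d8b1b3_co.SplitSkewHadamard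

open Matrix Finset

theorem result : ∃ C : ℕ, ∀ n q t m : ℕ, q % 2 = 1 → q ≤ (fun x : ℕ => 2 ^ x)^[n] 1 →
    2 ^ C ^ (n + 1) * (m + 1) ≤ t →
    ∀ w : Fin (m + 2) → ℕ, ∑ i, w i + 1 = 2 ^ t * q → (∀ i, i ≠ 0 → i ≠ 1 → 2 ^ t ∣ w i) →
    ∃ M : Fin (m + 2) → Matrix (Fin (2 ^ t * q)) (Fin (2 ^ t * q)) ℤ,
      (∀ i, (M i).transpose = -M i) ∧
      (∀ i, M i * (M i).transpose =
        (w i : ℤ) • (1 : Matrix (Fin (2 ^ t * q)) (Fin (2 ^ t * q)) ℤ)) ∧
      (∀ i j, i ≠ j → M i * M j = -(M j * M i)) ∧
      (∀ x y, x ≠ y → ∃ i, (M i x y = 1 ∨ M i x y = -1) ∧ ∀ j, j ≠ i → M j x y = 0) ∧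
      ∀ ε : Fin (m + 2) → ℤ, (∀ i, ε i = 1 ∨ ε i = -1) →
        ∃ H : Matrix (Fin (2 ^ t * q)) (Fin (2 ^ t * q)) ℤ, H = 1 + ∑ i, ε i • M i ∧
          (∀ x y, H x y = 1 ∨ H x y = -1) ∧
          H + H.transpose = (2 : ℤ) • (1 : Matrix (Fin (2 ^ t * q)) (Fin (2 ^ t * q)) ℤ) ∧
          H * H.transpose =
            ((2 ^ t * q : ℕ) : ℤ) • (1 : Matrix (Fin (2 ^ t * q)) (Fin (2 ^ t * q)) ℤ) := by
  obtain ⟨C, hC⟩ := Run7.h900.OD.main
  refine ⟨C, fun n q t m hq hqn ht w hw hd => ?_⟩
  obtain ⟨M, hM⟩ := hC n q t m hq hqn ht w hw hd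
  have hanti : ∀ i j, i ≠ j → M i * M j = -(M j * M i) := fun i j hij =>
    eq_neg_of_add_eq_zero_left (hM.anti i j hij)
  have hsk : ∀ ε : Fin (m + 2) → ℤ, (∑ i, ε i • M i).transpose = -∑ i, ε i • M i := by
    intro ε
    rw [transpose_sum, ← Finset.sum_neg_distrib]
    exact Finset.sum_congr rfl fun i _ => by rw [transpose_smul, hM.MT, smul_neg]
  refine ⟨M, hM.MT, fun i => ?_, hanti, fun x y hxy => hM.cover x y hxy, fun ε hε => ?_⟩
  · rw [hM.MT, mul_neg, hM.MM, neg_smul, neg_neg]
  · refine ⟨_, rfl, fun x y => ?_, ?_, ?_⟩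
    · rw [Matrix.add_apply, Matrix.sum_apply]
      simp only [Matrix.smul_apply, smul_eq_mul]
      by_cases hxy : x = y
      · subst hxy
        left
        rw [Matrix.one_apply_eq, Finset.sum_eq_zero fun i _ => by rw [hM.M0 i x, mul_zero], add_zero]
      · obtain ⟨i, hi, hj⟩ := hM.cover x y hxy
        rw [Matrix.one_apply_ne hxy, zero_add, Finset.sum_eq_single i
          (fun j _ hji => by rw [hj j hji, mul_zero]) (fun h => absurd (mem_univ i) h)]
        rcases hi with hi | hi <;> rcases hε i with he | he <;> rw [hi, he] <;> norm_num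
    · exact Run7.h900.OD.skew_add (hsk ε)
    · have h2 : (∑ i, ε i • M i) * (∑ i, ε i • M i) =
          (-(((2 ^ t * q : ℕ) : ℤ) - 1)) • (1 : Matrix (Fin (2 ^ t * q)) (Fin (2 ^ t * q)) ℤ) := by
        have h3 : (∑ i, ε i • M i) * (∑ i, ε i • M i) + (∑ i, ε i • M i) * (∑ i, ε i • M i) =
            ∑ i, ∑ j, (ε i * ε j) • (M i * M j + M j * M i) := by
          have h4 : (∑ i, ε i • M i) * (∑ i, ε i • M i) = ∑ i, ∑ j, (ε i * ε j) • (M i * M j) := by
            rw [Finset.sum_mul]
            refine Finset.sum_congr rfl fun i _ => ?_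
            rw [Finset.mul_sum]
            exact Finset.sum_congr rfl fun j _ => smul_mul_smul_comm _ _ _ _
          have h5 : (∑ i, ε i • M i) * (∑ i, ε i • M i) = ∑ i, ∑ j, (ε i * ε j) • (M j * M i) := by
            rw [h4, Finset.sum_comm]
            refine Finset.sum_congr rfl fun i _ => Finset.sum_congr rfl fun j _ => ?_
            rw [mul_comm (ε j)]
          conv_lhs => rw [h5]
          conv_lhs => lhs; rw [← h5, h4]
          rw [← Finset.sum_add_distrib]
          refine Finset.sum_congr rfl fun i _ => ?_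
          rw [← Finset.sum_add_distrib]
          exact Finset.sum_congr rfl fun j _ => by rw [smul_add]
        have h6 : ∀ i, ∑ j, (ε i * ε j) • (M i * M j + M j * M i) =
            (-(2 * (w i : ℤ))) • (1 : Matrix (Fin (2 ^ t * q)) (Fin (2 ^ t * q)) ℤ) := by
          intro i
          rw [Finset.sum_eq_single i]
          · have h7 : ε i * ε i = 1 := by rcases hε i with h | h <;> rw [h] <;> norm_num
            rw [h7, one_smul, hM.MM, ← add_smul]
            congr 1
            ring
          · intro j _ hji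
            rw [hM.anti i j (Ne.symm hji), smul_zero]
          · intro h
            exact absurd (mem_univ i) h
        rw [Finset.sum_congr rfl fun i _ => h6 i, ← Finset.sum_smul] at h3
        have h8 : ∑ i, (-(2 * (w i : ℤ))) = -(2 * (((2 ^ t * q : ℕ) : ℤ) - 1)) := by
          rw [Finset.sum_neg_distrib, ← Finset.mul_sum, ← hw]
          push_cast
          ring
        rw [h8] at h3
        ext x y
        have h9 := congrFun (congrFun h3 x) y
        rw [Matrix.add_apply, Matrix.smul_apply, smul_eq_mul] at h9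
        rw [Matrix.smul_apply, smul_eq_mul]
        linarith
      exact Run7.h900.OD.skew_mul (hsk ε) h2

end Pool.Agent.Results.MP_d8b1b3_co.SplitSkewHadamard
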